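import Pool.Agent.R333.SubR

/-!
# Integers close to linear combinations of products of given primes are rational combinations of them
-/

set_option autoImplicit false

namespace Pool.Agent.NH26.DT

open Finset Filter Topology

/-- pigeonhole for conditions that hold infinitely often -/
lemma freq_pigeon {T : Type} [Finite T] {P : ℕ → Prop} (h : ∃ᶠ m in atTop, P m) (f : ℕ → T) :
    ∃ t, ∃ᶠ m in atTop, P m ∧ f m = t := by
  by_contra hcon
  rw [not_exists] at hcon
  simp only [not_frequently] at hcon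
  have h1 : ∀ᶠ m in atTop, ∀ t, ¬ (P m ∧ f m = t) := eventually_all.2 hcon
  apply h
  filter_upwards [h1] with m hm hP
  exact hm (f m) ⟨hP, rfl⟩

/-- the matrix of the forms -/
noncomputable def MM {N : ℕ} (γ : Fin N → ℝ) : Matrix (Fin (N + 1)) (Fin (N + 1)) ℝ :=
  fun i j => Fin.lastCases (motive := fun _ => ℝ) (Fin.lastCases (motive := fun _ => ℝ) 1 (fun j => -γ j) j)
    (fun i => if i.castSucc = j then 1 else 0) i

lemma MM_last {N : ℕ} (γ : Fin N → ℝ) (x : Fin (N + 1) → ℝ) :
    ∑ j, MM γ (Fin.last N) j * x j = x (Fin.last N) - ∑ i : Fin N, γ i * x i.castSucc := by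
  rw [Fin.sum_univ_castSucc]
  unfold MM
  simp only [Fin.lastCases_last, Fin.lastCases_castSucc, one_mul, neg_mul, sum_neg_distrib]
  ring

lemma MM_castSucc {N : ℕ} (γ : Fin N → ℝ) (x : Fin (N + 1) → ℝ) (i : Fin N) :
    ∑ j, MM γ i.castSucc j * x j = x i.castSucc := by
  unfold MM
  simp only [Fin.lastCases_castSucc, ite_mul, one_mul, zero_mul]
  rw [Finset.sum_ite_eq]
  simp

/-- the case without summands -/
lemma approx_zero (b : ℕ) (hb : 2 ≤ b) (κ : ℕ) (P : ℕ → Prop) (hP : ∃ᶠ m in atTop, P m) (y : ℕ → ℤ)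
    (B : ℕ → ℕ) (hB : ∀ m, P m → B m ∣ b ^ (κ * m)) (η C : ℝ) (hη : 0 < η)
    (h : ∀ m, P m → |(B m : ℝ) * y m| ≤ C * B m * (b : ℝ) ^ (-(η * m))) :
    ∃ᶠ m in atTop, P m ∧ ((B m : ℚ) * y m = 0) := by
  have hb1 : (1 : ℝ) < b := by exact_mod_cast (by omega : 1 < b)
  have h1 : Tendsto (fun m : ℕ => C * (b : ℝ) ^ (-(η * m))) atTop (𝓝 (C * 0)) := by
    apply Tendsto.const_mul
    have h2 : Tendsto (fun m : ℕ => η * (m : ℝ)) atTop atTop :=
      tendsto_natCast_atTop_atTop.const_mul_atTop hη
    have h3 := (tendsto_rpow_neg_atTop (y := Real.log b) (Real.log_pos hb1))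
    have h4 : Tendsto (fun m : ℕ => Real.exp (-(η * (m : ℝ) * Real.log b))) atTop (𝓝 0) := by
      apply Real.tendsto_exp_neg_atTop_nhds_zero.comp
      exact h2.atTop_mul_const (Real.log_pos hb1)
    refine h4.congr fun m => ?_
    rw [Real.rpow_def_of_pos (by linarith)]
    congr 1
    ring
  rw [mul_zero] at h1
  have h5 : ∀ᶠ m : ℕ in atTop, C * (b : ℝ) ^ (-(η * m)) < 1 := h1.eventually_lt_const one_pos
  refine (hP.and_eventually h5).mono ?_
  rintro m ⟨hm, h6⟩
  refine ⟨hm, ?_⟩
  have hB0 : B m ≠ 0 := fun h0 => by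
    have := hB m hm
    rw [h0] at this
    exact (pow_ne_zero _ (by omega : b ≠ 0)) (Nat.eq_zero_of_zero_dvd this)
  have hBp : (0 : ℝ) < B m := by exact_mod_cast Nat.pos_of_ne_zero hB0
  have h7 := h m hm
  rw [abs_mul, abs_of_pos hBp, mul_comm C, mul_assoc] at h7
  have h8 : |(y m : ℝ)| ≤ C * (b : ℝ) ^ (-(η * m)) := le_of_mul_le_mul_left h7 hBp
  have h9 : |(y m : ℝ)| < 1 := h8.trans_lt h6
  have h10 : y m = 0 := by
    have : |y m| < 1 := by exact_mod_cast h9
    exact Int.abs_lt_one_iff.1 this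
  rw [h10]
  simp

/-- Integers `B * y` close to combinations of products of the primes of `b` are rational combinations. -/
theorem approx (b : ℕ) (hb : 2 ≤ b) (κ : ℕ) : ∀ (N : ℕ) (γ : Fin N → ℝ), (∀ i, IsAlgebraic ℚ (γ i)) →
    ∀ (P : ℕ → Prop), (∃ᶠ m in atTop, P m) → ∀ (y : ℕ → ℤ) (B : ℕ → ℕ) (Z : ℕ → Fin N → ℤ),
    (∀ m, P m → B m ∣ b ^ (κ * m)) → (∀ m i, P m → (Z m i).natAbs ∣ b ^ (κ * m)) →
    ∀ (η C : ℝ), 0 < η → 0 < C →
    (∀ m, P m → |(B m : ℝ) * y m - ∑ i, γ i * Z m i| ≤ C * B m * (b : ℝ) ^ (-(η * m))) →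
    ∃ c : Fin N → ℚ, ∃ᶠ m in atTop, P m ∧ ((B m : ℚ) * y m = ∑ i, c i * Z m i) := by
  intro N
  induction N with
  | zero =>
    intro γ _ P hP y B Z hB hZ η C hη hC h
    refine ⟨fun i => 0, ?_⟩
    have h1 := approx_zero b hb κ P hP y B hB η C hη (fun m hm => by simpa using h m hm)
    refine h1.mono fun m hm => ⟨hm.1, ?_⟩
    simp only [Finset.univ_eq_empty, Finset.sum_empty]
    exact hm.2
  | succ N ih =>
    intro γ hγ P hP y B Z hB hZ η C hη hC h
    have hb1 : (1 : ℝ) < b := by exact_mod_cast (by omega : 1 < b)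
    have hb0 : (0 : ℝ) < b := by linarith
    have hL : 0 < Real.log b := Real.log_pos hb1
    -- the data
    set D : ℕ → Fin (N + 1 + 1) → ℕ := fun m => Fin.snoc (fun i => (Z m i).natAbs) (B m) with hD
    set x : ℕ → Fin (N + 1 + 1) → ℤ := fun m => Fin.snoc (Z m) (B m * y m) with hx
    have hD1 : ∀ m l, P m → D m l ∣ b ^ (κ * m) := by
      intro m l hm
      refine Fin.lastCases ?_ (fun i => ?_) l
      · simp only [hD, Fin.snoc_last]
        exact hB m hm
      · simp only [hD, Fin.snoc_castSucc]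
        exact hZ m i hm
    have hDpos : ∀ m l, P m → 0 < D m l := by
      intro m l hm
      exact Nat.pos_of_dvd_of_pos (hD1 m l hm) (pow_pos (by omega) _)
    have hdiv : ∀ m l, P m → (D m l : ℤ) ∣ x m l := by
      intro m l hm
      refine Fin.lastCases ?_ (fun i => ?_) l
      · simp only [hD, hx, Fin.snoc_last]
        exact dvd_mul_right _ _
      · simp only [hD, hx, Fin.snoc_castSucc]
        exact Int.natAbs_dvd.2 dvd_rfl
    set s : ℝ := η / (2 * (N + 2)) with hs
    have hs0 : 0 < s := by positivity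
    set T : ℕ := ⌈(κ : ℝ) / s⌉₊ with hT
    -- the quantisation
    set g : ℕ → Fin (N + 1 + 1) → ℕ := fun m l => ⌈Real.log (D m l) / (s * (m * Real.log b))⌉₊ with hg
    have hlogD : ∀ m l, P m → 0 ≤ Real.log (D m l) ∧ Real.log (D m l) ≤ κ * (m * Real.log b) := by
      intro m l hm
      have h1 := hDpos m l hm
      refine ⟨Real.log_nonneg (by exact_mod_cast h1), ?_⟩
      have h2 : D m l ≤ b ^ (κ * m) := Nat.le_of_dvd (pow_pos (by omega) _) (hD1 m l hm)
      have h3 : (D m l : ℝ) ≤ (b : ℝ) ^ (κ * m) := by exact_mod_cast h2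
      have h4 := Real.log_le_log (by exact_mod_cast h1) h3
      rw [Real.log_pow] at h4
      push_cast at h4
      linarith
    have hgT : ∀ m l, P m → 1 ≤ m → g m l ≤ T := by
      intro m l hm hm1
      rw [hg, hT]
      apply Nat.ceil_le_ceil
      have hmr : (1 : ℝ) ≤ m := by exact_mod_cast hm1
      have h1 : 0 < (m : ℝ) * Real.log b := by positivity
      rw [div_le_div_iff₀ (by positivity) hs0]
      have := (hlogD m l hm).2
      calc Real.log (D m l) * s ≤ κ * (m * Real.log b) * s := mul_le_mul_of_nonneg_right this hs0.le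
        _ = _ := by ring
    have hP1 : ∃ᶠ m in atTop, P m ∧ 1 ≤ m := hP.and_eventually (eventually_ge_atTop 1)
    obtain ⟨t, ht⟩ := freq_pigeon hP1 (fun m => (fun l => (⟨min (g m l) T, by omega⟩ : Fin (T + 1)) :
      Fin (N + 1 + 1) → Fin (T + 1)))
    set P' : ℕ → Prop := fun m => P m ∧ 1 ≤ m ∧ ∀ l, g m l = t l with hP'
    have hP'f : ∃ᶠ m in atTop, P' m := by
      refine ht.mono ?_
      rintro m ⟨⟨h1, h2⟩, h3⟩
      refine ⟨h1, h2, fun l => ?_⟩
      have h4 := congrFun h3 l
      have h5 := congrArg Fin.val h4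
      simp only at h5
      rw [min_eq_left (hgT m l h1 h2)] at h5
      exact h5
    set a : Fin (N + 1 + 1) → ℝ := Fin.snoc (fun i => s * (t i.castSucc : ℕ)) (s * (t (Fin.last _) : ℕ) - η) with ha
    -- sizes
    have hup : ∀ m l, P' m → (D m l : ℝ) ≤ (b : ℝ) ^ (s * (t l : ℕ) * m) := by
      rintro m l ⟨h1, h2, h3⟩
      have hmr : (1 : ℝ) ≤ m := by exact_mod_cast h2
      have h4 : Real.log (D m l) / (s * (m * Real.log b)) ≤ g m l := Nat.le_ceil _
      rw [h3 l, div_le_iff₀ (by positivity)] at h4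
      have h5 : (0 : ℝ) < D m l := by exact_mod_cast hDpos m l h1
      rw [← Real.log_le_log_iff h5 (Real.rpow_pos_of_pos hb0 _), Real.log_rpow hb0]
      calc Real.log (D m l) ≤ _ := h4
        _ = _ := by ring
    have hlow : ∀ m l, P' m → s * ((t l : ℕ) - 1) * m * Real.log b ≤ Real.log (D m l) := by
      rintro m l ⟨h1, h2, h3⟩
      have hmr : (1 : ℝ) ≤ m := by exact_mod_cast h2
      have h4 : (g m l : ℝ) < Real.log (D m l) / (s * (m * Real.log b)) + 1 := by
        apply Nat.ceil_lt_add_one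
        have := (hlogD m l h1).1
        positivity
      rw [h3 l] at h4
      have h5 : ((t l : ℕ) : ℝ) - 1 ≤ Real.log (D m l) / (s * (m * Real.log b)) := by linarith
      rw [le_div_iff₀ (by positivity)] at h5
      calc _ = (((t l : ℕ) : ℝ) - 1) * (s * (m * Real.log b)) := by ring
        _ ≤ _ := h5
    have halg : ∀ i j, IsAlgebraic ℚ (MM γ i j) := by
      -- algebraic
      intro i j
      unfold MM
      refine Fin.lastCases ?_ (fun i => ?_) i
      · rw [Fin.lastCases_last]
        refine Fin.lastCases ?_ (fun j => ?_) j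
        · rw [Fin.lastCases_last]
          exact isAlgebraic_one
        · rw [Fin.lastCases_castSucc]
          exact (hγ j).neg
      · rw [Fin.lastCases_castSucc]
        split_ifs
        · exact isAlgebraic_one
        · exact isAlgebraic_zero
    have htri : ∀ i j, i < j → MM γ i j = 0 := by
      -- lower triangular
      intro i j hij
      unfold MM
      revert hij
      refine Fin.lastCases ?_ (fun i => ?_) i
      · intro hij
        exact absurd hij (not_lt.2 (Fin.le_last j))
      · intro hij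
        rw [Fin.lastCases_castSucc, if_neg hij.ne]
    have hdiag : ∀ i, MM γ i i ≠ 0 := by
      intro i
      unfold MM
      refine Fin.lastCases ?_ (fun i => ?_) i
      · rw [Fin.lastCases_last, Fin.lastCases_last]
        exact one_ne_zero
      · rw [Fin.lastCases_castSucc, if_pos rfl]
        exact one_ne_zero
    have hxne : ∀ m, P' m → x m ≠ 0 := by
      -- nonzero
      intro m hm h0
      have h1 := congrFun h0 (Fin.castSucc 0)
      simp only [hx, Fin.snoc_castSucc, Pi.zero_apply] at h1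
      have h2 := hDpos m (Fin.castSucc 0) hm.1
      simp only [hD, Fin.snoc_castSucc] at h2
      rw [h1] at h2
      simp at h2
    have hsmall : ∀ m l, P' m → |∑ j, MM γ l j * x m j| ≤ max C 1 * (b : ℝ) ^ (a l * m) := by
      -- small
      intro m l hm
      refine Fin.lastCases ?_ (fun i => ?_) l
      · rw [MM_last]
        simp only [hx, Fin.snoc_last, Fin.snoc_castSucc, ha]
        have h1 := h m hm.1
        have h2 := hup m (Fin.last _) hm
        simp only [hD, Fin.snoc_last] at h2
        push_cast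
        refine h1.trans ?_
        have h3 : (b : ℝ) ^ ((s * (t (Fin.last _) : ℕ) - η) * m) =
            (b : ℝ) ^ (s * (t (Fin.last _) : ℕ) * m) * (b : ℝ) ^ (-(η * m)) := by
          rw [← Real.rpow_add hb0]
          congr 1
          ring
        rw [h3]
        have h4 : 0 < (b : ℝ) ^ (-(η * m)) := Real.rpow_pos_of_pos hb0 _
        calc C * B m * (b : ℝ) ^ (-(η * m)) ≤ max C 1 * (b : ℝ) ^ (s * (t (Fin.last _) : ℕ) * m) *
              (b : ℝ) ^ (-(η * m)) := by
              apply mul_le_mul_of_nonneg_right _ h4.le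
              exact mul_le_mul (le_max_left _ _) h2 (Nat.cast_nonneg _) (by positivity)
          _ = _ := by ring
      · rw [MM_castSucc]
        simp only [hx, Fin.snoc_castSucc, ha]
        have h2 := hup m i.castSucc hm
        simp only [hD, Fin.snoc_castSucc] at h2
        have h3 : |(Z m i : ℝ)| = ((Z m i).natAbs : ℝ) := by
          rw [← Int.cast_abs, Nat.cast_natAbs]
        rw [h3]
        refine h2.trans ?_
        have h4 : 0 < (b : ℝ) ^ (s * (t i.castSucc : ℕ) * m) := Real.rpow_pos_of_pos hb0 _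
        calc _ = 1 * (b : ℝ) ^ (s * (t i.castSucc : ℕ) * m) := (one_mul _).symm
          _ ≤ _ := mul_le_mul_of_nonneg_right (le_max_right _ _) h4.le
    have hsum : ∀ m, P' m → (∑ l, a l + η / 2) * m * Real.log b ≤ ∑ l, Real.log (D m l) := by
      -- the sum
      intro m hm
      have h1 : ∑ l, s * ((t l : ℕ) - 1) * m * Real.log b ≤ ∑ l, Real.log (D m l) :=
        sum_le_sum fun l _ => hlow m l hm
      refine le_trans (le_of_eq ?_) h1
      rw [← sum_mul, ← sum_mul, ← mul_sum, sum_sub_distrib, sum_const, card_univ, Fintype.card_fin,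
        nsmul_eq_mul, mul_one]
      congr 2
      have h2 : ∑ l, a l = s * ∑ l, ((t l : ℕ) : ℝ) - η := by
        have h3 := Fin.sum_univ_castSucc (fun l => ((t l : ℕ) : ℝ))
        rw [Fin.sum_univ_castSucc (f := a), h3]
        simp only [ha, Fin.snoc_castSucc, Fin.snoc_last]
        rw [← mul_sum]
        ring
      rw [h2, hs]
      push_cast
      field_simp
      ring
    obtain ⟨z, hz0, hz⟩ := R333.SubR.sub_real (n := N + 1 + 1) (by omega) b hb (MM γ) halg htri hdiag P' hP'f x
      hxne D κ (fun m l hm => hD1 m l hm.1) (fun m l hm => hdiv m l hm.1) a (max C 1) (by positivity) hsmall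
      (η / 2) (by positivity) hsum
    -- the relation
    by_cases hlast : z (Fin.last _) = 0
    · obtain ⟨i0, hi0⟩ : ∃ i0 : Fin (N + 1), z i0.castSucc ≠ 0 := by
        by_contra hcon
        push Not at hcon
        apply hz0
        funext l
        refine Fin.lastCases ?_ (fun i => ?_) l
        · exact hlast
        · exact hcon i
      have hi0r : (z i0.castSucc : ℝ) ≠ 0 := by exact_mod_cast hi0
      have hi0q : (z i0.castSucc : ℚ) ≠ 0 := by exact_mod_cast hi0
      have hrel : ∀ m, P' m ∧ ∑ l, z l * x m l = 0 → (Z m i0 : ℚ) =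
          ∑ i : Fin N, (-(z (i0.succAbove i).castSucc : ℚ) / z i0.castSucc) * Z m (i0.succAbove i) := by
        rintro m ⟨-, h1⟩
        rw [Fin.sum_univ_castSucc, hlast, zero_mul, add_zero] at h1
        simp only [hx, Fin.snoc_castSucc] at h1
        rw [Fin.sum_univ_succAbove _ i0] at h1
        have h2 : (z i0.castSucc : ℚ) * Z m i0 + ∑ i : Fin N, (z (i0.succAbove i).castSucc : ℚ) *
            Z m (i0.succAbove i) = 0 := by exact_mod_cast h1
        have h3 : (Z m i0 : ℚ) = -(∑ i : Fin N, (z (i0.succAbove i).castSucc : ℚ) *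
            Z m (i0.succAbove i)) / z i0.castSucc := by
          rw [eq_div_iff hi0q]
          linarith
        rw [h3, neg_div, sum_div, ← sum_neg_distrib]
        refine sum_congr rfl fun i _ => ?_
        ring
      obtain ⟨c, hc⟩ := ih (fun i => γ (i0.succAbove i) +
          γ i0 * (((-(z (i0.succAbove i).castSucc : ℚ) / z i0.castSucc : ℚ)) : ℝ))
        (fun i => (hγ _).add ((hγ _).mul (isAlgebraic_algebraMap _)))
        (fun m => P' m ∧ ∑ l, z l * x m l = 0) hz y B (fun m i => Z m (i0.succAbove i))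
        (fun m hm => hB m hm.1.1) (fun m i hm => hZ m _ hm.1.1) η C hη hC (by
          intro m hm
          have h1 := h m hm.1.1
          have h2 := hrel m hm
          have h3 : (Z m i0 : ℝ) = ∑ i : Fin N, (((-(z (i0.succAbove i).castSucc : ℚ) / z i0.castSucc : ℚ)) : ℝ) *
              Z m (i0.succAbove i) := by exact_mod_cast congrArg (Rat.cast : ℚ → ℝ) h2
          rw [Fin.sum_univ_succAbove _ i0, h3] at h1
          convert h1 using 3
          rw [mul_sum, ← sum_add_distrib]
          refine sum_congr rfl fun i _ => ?_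
          ring)
      refine ⟨fun j => if hj : j = i0 then 0 else c (Fin.exists_succAbove_eq hj).choose, ?_⟩
      refine hc.mono ?_
      rintro m ⟨h1, h2⟩
      refine ⟨h1.1.1, ?_⟩
      rw [h2, Fin.sum_univ_succAbove _ i0]
      simp only [dite_true, zero_mul, zero_add]
      refine sum_congr rfl fun i _ => ?_
      rw [dif_neg (Fin.succAbove_ne i0 i)]
      congr 2
      have h3 := (Fin.exists_succAbove_eq (Fin.succAbove_ne i0 i)).choose_spec
      exact (Fin.succAbove_right_injective h3).symm
    · have hlq : (z (Fin.last _) : ℚ) ≠ 0 := by exact_mod_cast hlast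
      refine ⟨fun i => -(z i.castSucc : ℚ) / z (Fin.last _), ?_⟩
      refine hz.mono ?_
      rintro m ⟨h1, h2⟩
      refine ⟨h1.1, ?_⟩
      rw [Fin.sum_univ_castSucc] at h2
      simp only [hx, Fin.snoc_castSucc, Fin.snoc_last] at h2
      have h3 : ∑ i : Fin (N + 1), (z i.castSucc : ℚ) * Z m i + (z (Fin.last _) : ℚ) * (B m * y m) = 0 := by
        exact_mod_cast h2
      have h4 : (B m : ℚ) * y m = -(∑ i : Fin (N + 1), (z i.castSucc : ℚ) * Z m i) / z (Fin.last _) := by
        rw [eq_div_iff hlq]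
        linarith
      rw [h4, neg_div, sum_div, ← sum_neg_distrib]
      refine sum_congr rfl fun i _ => ?_
      ring

end Pool.Agent.NH26.DT
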