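import Pool.Agent.NH26.DT.Prep

/-!
# Almost `q`-th powers are close to values of the Taylor polynomial
-/

set_option autoImplicit false

namespace Pool.Agent.NH26.DT

open Finset Polynomial

lemma abs_sub_mul_pow_le {a b : ℝ} (ha : 0 ≤ a) (hb : 0 ≤ b) (q : ℕ) (hq : 1 ≤ q) :
    |a - b| * b ^ (q - 1) ≤ |a ^ q - b ^ q| := by
  obtain ⟨n, rfl⟩ : ∃ n, q = n + 1 := ⟨q - 1, by omega⟩
  rw [Nat.add_sub_cancel]
  rcases le_total b a with h | h
  · have h1 : b ^ n ≤ a ^ n := pow_le_pow_left₀ hb h n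
    rw [abs_of_nonneg (by linarith)]
    refine le_trans ?_ (le_abs_self _)
    rw [pow_succ, pow_succ]
    nlinarith
  · have h1 : a ^ n ≤ b ^ n := pow_le_pow_left₀ ha h n
    rw [abs_of_nonpos (by linarith)]
    refine le_trans ?_ (neg_le_abs _)
    rw [pow_succ, pow_succ]
    nlinarith

/-- if `y ^ q` is close to `x ^ p`, both are of the same size -/
lemma max_le_two {p q : ℕ} {x y θ : ℝ} (hθ : θ < 1)
    (hX : (2 : ℝ) ^ (1 / (1 - θ)) ≤ max (|x| ^ p) (|y| ^ q))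
    (h : |y ^ q - x ^ p| ≤ (max (|x| ^ p) (|y| ^ q)) ^ θ) :
    max (|x| ^ p) (|y| ^ q) ≤ 2 * |x| ^ p := by
  set X := max (|x| ^ p) (|y| ^ q) with hXdef
  have h1 : (1 : ℝ) < (2 : ℝ) ^ (1 / (1 - θ)) := Real.one_lt_rpow (by norm_num) (by
    have : 0 < 1 - θ := by linarith
    positivity)
  have hX0 : 0 < X := by linarith
  have h2 : 2 ≤ X ^ (1 - θ) := by
    have h3 := Real.rpow_le_rpow (by positivity) hX (by linarith : (0 : ℝ) ≤ 1 - θ)
    rw [← Real.rpow_mul (by norm_num), one_div_mul_cancel (by linarith), Real.rpow_one] at h3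
    exact h3
  have h4 : X ^ θ ≤ X / 2 := by
    rw [le_div_iff₀ (by norm_num)]
    calc X ^ θ * 2 ≤ X ^ θ * X ^ (1 - θ) := mul_le_mul_of_nonneg_left h2 (Real.rpow_nonneg hX0.le _)
      _ = X := by rw [← Real.rpow_add hX0, add_sub_cancel, Real.rpow_one]
  have h5 : |y| ^ q ≤ |x| ^ p + X / 2 := by
    have h6 : |y ^ q| ≤ |y ^ q - x ^ p| + |x ^ p| := by
      calc |y ^ q| = |(y ^ q - x ^ p) + x ^ p| := by rw [sub_add_cancel]
        _ ≤ _ := abs_add_le _ _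
    rw [abs_pow, abs_pow] at h6
    linarith
  have h7 : 0 ≤ |x| ^ p := by positivity
  apply max_le
  · linarith
  · rcases max_cases (|x| ^ p) (|y| ^ q) with ⟨h8, h9⟩ | ⟨h8, h9⟩
    · linarith
    · rw [← hXdef] at h8
      linarith

/-- closeness -/
lemma close (p q k M : ℕ) (hp : 2 ≤ p) (hq : 2 ≤ q) (δ : ℝ) (hδ : 0 < δ) :
    ∃ (D : ℕ) (S : ℚ[X]), S.natDegree ≤ D ∧ ∃ C U0 : ℝ, 0 < C ∧ 1 ≤ U0 ∧
      ∀ (A u z x y r w : ℝ), 1 ≤ A → A ≤ M → U0 ≤ u → |z| ≤ (k * M) * u ^ (-δ) → |x| = A * u * |1 + z| →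
        0 < r → 0 < w → u = r * w ^ q →
        |y ^ q - x ^ p| ≤ (max (|x| ^ p) (|y| ^ q)) ^ (1 - 1 / (p : ℝ) - 1 / (q : ℝ)) →
        |x| ≥ u / 2 ∧
        |(|y|) - (A * r) ^ ((p : ℝ) / q) * w ^ p * aeval z S| ≤ C / u := by
  have hpr : (2 : ℝ) ≤ p := by exact_mod_cast hp
  have hqr : (2 : ℝ) ≤ q := by exact_mod_cast hq
  have hp0 : (0 : ℝ) < p := by linarith
  have hq0 : (0 : ℝ) < q := by linarith
  set θ : ℝ := 1 - 1 / (p : ℝ) - 1 / (q : ℝ) with hθ
  have hpi : 1 / (p : ℝ) ≤ 1 / 2 := one_div_le_one_div_of_le (by norm_num) hpr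
  have hqi : 1 / (q : ℝ) ≤ 1 / 2 := one_div_le_one_div_of_le (by norm_num) hqr
  have hpi0 : 0 < 1 / (p : ℝ) := by positivity
  have hqi0 : 0 < 1 / (q : ℝ) := by positivity
  have hθ1 : θ < 1 := by rw [hθ]; linarith
  have hθ0 : 0 ≤ θ := by rw [hθ]; linarith
  set D : ℕ := ⌈(1 + (p : ℝ) / q) / δ⌉₊ with hD
  obtain ⟨S, hS, C0, r0, hC0, hr0, hroot⟩ := root_bound p q D (by omega)
  -- the threshold
  have hlim : Filter.Tendsto (fun u : ℝ => ((k * M : ℝ)) * u ^ (-δ)) Filter.atTop (nhds 0) := by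
    have := (tendsto_rpow_neg_atTop hδ).const_mul (k * M : ℝ)
    rwa [mul_zero] at this
  have hev : ∀ᶠ u : ℝ in Filter.atTop, ((k * M : ℝ)) * u ^ (-δ) < min (1 / 2) r0 :=
    hlim.eventually_lt_const (by positivity)
  obtain ⟨U1, hU1⟩ := Filter.eventually_atTop.1 hev
  set KM : ℝ := (k * M : ℝ) ^ (D + 1) * (M : ℝ) ^ (1 + (p : ℝ) / q) with hKM
  set C3 : ℝ := 2 ^ (p + 1) + C0 * KM with hC3
  have hKM0 : 0 ≤ KM := by positivity
  have hC30 : 0 < C3 := by positivity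
  refine ⟨D, S, hS, C3 * 2 ^ (q - 1), max (max 1 U1) (2 * 2 ^ (1 / (1 - θ))), by positivity,
    (le_max_left _ _).trans (le_max_left _ _), ?_⟩
  intro A u z x y r w hA hAM hu hz hx hr hw huw hclose
  have hu1 : 1 ≤ u := ((le_max_left _ _).trans (le_max_left _ _)).trans hu
  have huU : U1 ≤ u := ((le_max_right _ _).trans (le_max_left _ _)).trans hu
  have hu2 : 2 * 2 ^ (1 / (1 - θ)) ≤ u := (le_max_right _ _).trans hu
  have hu0 : 0 < u := by linarith
  have hzs := hz.trans (hU1 u huU).le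
  have hz1 : |z| ≤ 1 / 2 := hzs.trans (min_le_left _ _)
  have hz2 : |z| ≤ r0 := hzs.trans (min_le_right _ _)
  obtain ⟨hroot1, hroot2⟩ := hroot z hz2
  have hz3 := abs_le.1 hz1
  rw [abs_of_nonneg (by linarith : 0 ≤ 1 + z)] at hx
  set v : ℝ := A * u with hv
  have hvu : u ≤ v := by
    rw [hv]
    nlinarith
  have hv0 : 0 < v := by linarith
  have hv1 : 1 ≤ v := by linarith
  have hxlow : u / 2 ≤ |x| := by
    rw [hx]
    nlinarith
  have hxup : |x| ≤ 2 * v := by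
    rw [hx]
    nlinarith
  refine ⟨hxlow, ?_⟩
  set X := max (|x| ^ p) (|y| ^ q) with hX
  have hone : (1 : ℝ) ≤ 2 ^ (1 / (1 - θ)) := Real.one_le_rpow (by norm_num) (by
    have : 0 < 1 - θ := by linarith
    positivity)
  have hxbig : (2 : ℝ) ^ (1 / (1 - θ)) ≤ |x| := by linarith
  have hXbig : (2 : ℝ) ^ (1 / (1 - θ)) ≤ X := by
    refine le_trans ?_ (le_max_left _ _)
    refine hxbig.trans ?_
    exact le_self_pow₀ (by linarith) (by omega)
  have hX2 := max_le_two hθ1 hXbig hclose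
  rw [← hX] at hX2
  have hX3 : X ≤ 2 ^ (p + 1) * v ^ p := by
    calc X ≤ 2 * |x| ^ p := hX2
      _ ≤ 2 * (2 * v) ^ p := by gcongr
      _ = _ := by ring
  have hXθ : X ^ θ ≤ 2 ^ (p + 1) * v ^ ((p : ℝ) * θ) := by
    have h1 : X ^ θ ≤ (2 ^ (p + 1) * v ^ p) ^ θ := Real.rpow_le_rpow (by linarith) hX3 hθ0
    rw [Real.mul_rpow (by positivity) (by positivity)] at h1
    refine h1.trans ?_
    have h2 : ((2 : ℝ) ^ (p + 1)) ^ θ ≤ 2 ^ (p + 1) := by
      calc ((2 : ℝ) ^ (p + 1)) ^ θ ≤ ((2 : ℝ) ^ (p + 1)) ^ (1 : ℝ) :=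
            Real.rpow_le_rpow_of_exponent_le (one_le_pow₀ (by norm_num)) hθ1.le
        _ = _ := Real.rpow_one _
    have h3 : (v ^ p) ^ θ = v ^ ((p : ℝ) * θ) := by
      rw [← Real.rpow_natCast, ← Real.rpow_mul hv0.le]
    rw [h3]
    exact mul_le_mul_of_nonneg_right h2 (Real.rpow_nonneg hv0.le _)
  -- the root of the main term
  set s : ℝ := v ^ ((p : ℝ) / q) with hs
  have hs0 : 0 < s := Real.rpow_pos_of_pos hv0 _
  have hsα : (A * r) ^ ((p : ℝ) / q) * w ^ p = s := by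
    have h1 : v = A * r * w ^ q := by rw [hv, huw]; ring
    have h2 : ((w ^ q : ℝ)) ^ ((p : ℝ) / q) = w ^ p := by
      rw [← Real.rpow_natCast, ← Real.rpow_mul hw.le, mul_div_cancel₀ _ hq0.ne', Real.rpow_natCast]
    rw [hs, h1, Real.mul_rpow (by positivity : 0 ≤ A * r) (by positivity : 0 ≤ w ^ q), h2]
  have hsq : s ^ q = v ^ p := by
    rw [hs, ← Real.rpow_natCast, ← Real.rpow_mul hv0.le, div_mul_cancel₀ _ hq0.ne', Real.rpow_natCast]
  rw [hsα]
  set Sz : ℝ := aeval z S with hSz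
  set V : ℝ := s * Sz with hV
  have hV0 : s / 2 ≤ V := by rw [hV]; nlinarith
  have hVp : 0 < V := by linarith
  -- the difference of the powers
  have hE : |(|y|) ^ q - V ^ q| ≤ C3 * v ^ ((p : ℝ) * θ) := by
    have h1 : |(|y|) ^ q - |x| ^ p| ≤ |y ^ q - x ^ p| := by
      rw [← abs_pow, ← abs_pow]
      exact abs_abs_sub_abs_le_abs_sub _ _
    have h2 : |(|x|) ^ p - V ^ q| ≤ C0 * KM * v ^ ((p : ℝ) * θ) := by
      have h3 : |x| ^ p - V ^ q = v ^ p * ((1 + z) ^ p - Sz ^ q) := by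
        rw [hV, mul_pow, hsq, hx, mul_pow]
        ring
      rw [h3, abs_mul, abs_of_pos (by positivity : 0 < v ^ p), abs_sub_comm]
      have h4 : |z| ^ (D + 1) ≤ (k * M : ℝ) ^ (D + 1) * u ^ (-(1 + (p : ℝ) / q)) := by
        calc |z| ^ (D + 1) ≤ ((k * M) * u ^ (-δ)) ^ (D + 1) := pow_le_pow_left₀ (abs_nonneg _) hz _
          _ = (k * M : ℝ) ^ (D + 1) * u ^ (-δ * (D + 1 : ℕ)) := by
              rw [mul_pow, ← Real.rpow_natCast (u ^ (-δ)), ← Real.rpow_mul hu0.le]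
          _ ≤ _ := by
              apply mul_le_mul_of_nonneg_left _ (by positivity)
              apply Real.rpow_le_rpow_of_exponent_le hu1
              have h5 : (1 + (p : ℝ) / q) / δ ≤ D := Nat.le_ceil _
              rw [div_le_iff₀ hδ] at h5
              push_cast
              nlinarith
      have h6 : u ^ (-(1 + (p : ℝ) / q)) ≤ (M : ℝ) ^ (1 + (p : ℝ) / q) * v ^ (-(1 + (p : ℝ) / q)) := by
        have hvM : v ≤ M * u := by rw [hv]; exact mul_le_mul_of_nonneg_right hAM hu0.le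
        have hM0 : (0 : ℝ) < M := by linarith
        have e0 : 0 ≤ 1 + (p : ℝ) / q := by positivity
        have h7 : v ^ (1 + (p : ℝ) / q) ≤ (M : ℝ) ^ (1 + (p : ℝ) / q) * u ^ (1 + (p : ℝ) / q) := by
          rw [← Real.mul_rpow hM0.le hu0.le]
          exact Real.rpow_le_rpow hv0.le hvM e0
        rw [Real.rpow_neg hu0.le, Real.rpow_neg hv0.le, ← div_eq_mul_inv,
          le_div_iff₀ (Real.rpow_pos_of_pos hv0 _), ← div_eq_inv_mul,
          div_le_iff₀ (Real.rpow_pos_of_pos hu0 _)]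
        exact h7
      calc v ^ p * |Sz ^ q - (1 + z) ^ p| ≤ v ^ p * (C0 * |z| ^ (D + 1)) := by gcongr
        _ ≤ v ^ p * (C0 * ((k * M : ℝ) ^ (D + 1) * ((M : ℝ) ^ (1 + (p : ℝ) / q) *
              v ^ (-(1 + (p : ℝ) / q))))) := by
            gcongr
            refine h4.trans ?_
            gcongr
        _ = C0 * KM * (v ^ p * v ^ (-(1 + (p : ℝ) / q))) := by rw [hKM]; ring
        _ = C0 * KM * v ^ ((p : ℝ) * θ) := by
            congr 1
            rw [← Real.rpow_natCast v p, ← Real.rpow_add hv0]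
            congr 1
            rw [hθ]
            field_simp
            ring
    calc |(|y|) ^ q - V ^ q| = |((|y|) ^ q - |x| ^ p) + (|x| ^ p - V ^ q)| := by
          congr 1
          ring
      _ ≤ |(|y|) ^ q - |x| ^ p| + |(|x|) ^ p - V ^ q| := abs_add_le _ _
      _ ≤ 2 ^ (p + 1) * v ^ ((p : ℝ) * θ) + C0 * KM * v ^ ((p : ℝ) * θ) :=
          add_le_add ((h1.trans hclose).trans hXθ) h2
      _ = _ := by rw [hC3]; ring
  have hfin := (abs_sub_mul_pow_le (abs_nonneg y) hVp.le q (by omega)).trans hE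
  have hVq : s ^ (q - 1) / 2 ^ (q - 1) ≤ V ^ (q - 1) := by
    rw [← div_pow]
    exact pow_le_pow_left₀ (by positivity) hV0 _
  have hsq1 : 0 < s ^ (q - 1) := by positivity
  have h8 : |(|y|) - V| * (s ^ (q - 1) / 2 ^ (q - 1)) ≤ C3 * v ^ ((p : ℝ) * θ) :=
    (mul_le_mul_of_nonneg_left hVq (abs_nonneg _)).trans hfin
  have h9 : v ^ ((p : ℝ) * θ) = s ^ (q - 1) * v⁻¹ := by
    have h10 : s ^ (q - 1) = v ^ ((p : ℝ) / q * (q - 1)) := by
      rw [hs, ← Real.rpow_natCast, ← Real.rpow_mul hv0.le, Nat.cast_sub (by omega), Nat.cast_one]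
    rw [h10, ← Real.rpow_neg_one v, ← Real.rpow_add hv0]
    congr 1
    rw [hθ]
    field_simp
    ring
  rw [h9] at h8
  have h11 : |(|y|) - V| ≤ C3 * 2 ^ (q - 1) * v⁻¹ := by
    have h12 : |(|y|) - V| * s ^ (q - 1) ≤ C3 * 2 ^ (q - 1) * v⁻¹ * s ^ (q - 1) := by
      have h13 : |(|y|) - V| * (s ^ (q - 1) / 2 ^ (q - 1)) * 2 ^ (q - 1) = |(|y|) - V| * s ^ (q - 1) := by
        field_simp
      rw [← h13]
      calc _ ≤ C3 * (s ^ (q - 1) * v⁻¹) * 2 ^ (q - 1) := mul_le_mul_of_nonneg_right h8 (by positivity)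
        _ = _ := by ring
    exact le_of_mul_le_mul_right h12 hsq1
  refine h11.trans ?_
  rw [div_eq_mul_inv]
  apply mul_le_mul_of_nonneg_left _ (by positivity)
  exact inv_anti₀ hu0 hvu

end Pool.Agent.NH26.DT
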