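import Pool.Agent.NH26.DT.Approx
import Pool.Agent.NH26.DT.Close
import Pool.Agent.TH551.HA.Fin

/-!
# Hall's inequality for integers with a dominating summand
-/

set_option autoImplicit false

namespace Pool.Agent.NH26.DT

open Finset Filter Topology Polynomial

/-- `x` is a sum of `k + 1` multiples of smooth numbers, the first one dominates -/
structure Dat (k b M : ℕ) (δ : ℝ) (a : Fin (k + 1) → ℤ) (u : Fin (k + 1) → ℕ) (x : ℤ) : Prop where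
  ha : ∀ j, |a j| ≤ M
  ha0 : a 0 ≠ 0
  hu : ∀ j, Smooth b (u j)
  hd : ∀ j : Fin k, (u j.succ : ℝ) ≤ (u 0 : ℝ) ^ (1 - δ)
  hx : x = ∑ j, a j * u j

/-- the relative size of the other summands -/
noncomputable def zz {k : ℕ} (a : Fin (k + 1) → ℤ) (u : Fin (k + 1) → ℕ) : ℝ :=
  ∑ j : Fin k, ((a j.succ : ℝ) / a 0) * ((u j.succ : ℝ) / u 0)

lemma Dat.u0 {k b M : ℕ} {δ : ℝ} {a : Fin (k + 1) → ℤ} {u : Fin (k + 1) → ℕ} {x : ℤ}
    (h : Dat k b M δ a u x) : (1 : ℝ) ≤ u 0 := by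
  exact_mod_cast Nat.pos_of_ne_zero (h.hu 0).1

lemma Dat.a0 {k b M : ℕ} {δ : ℝ} {a : Fin (k + 1) → ℤ} {u : Fin (k + 1) → ℕ} {x : ℤ}
    (h : Dat k b M δ a u x) : (1 : ℝ) ≤ |(a 0 : ℝ)| := by
  rw [← Int.cast_abs]
  exact_mod_cast Int.one_le_abs h.ha0

lemma Dat.aj {k b M : ℕ} {δ : ℝ} {a : Fin (k + 1) → ℤ} {u : Fin (k + 1) → ℕ} {x : ℤ}
    (h : Dat k b M δ a u x) (j : Fin (k + 1)) : |(a j : ℝ)| ≤ M := by
  rw [← Int.cast_abs]
  exact_mod_cast h.ha j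

lemma Dat.z_le {k b M : ℕ} {δ : ℝ} {a : Fin (k + 1) → ℤ} {u : Fin (k + 1) → ℕ} {x : ℤ}
    (h : Dat k b M δ a u x) : |zz a u| ≤ (k * M) * (u 0 : ℝ) ^ (-δ) := by
  have hu0 := h.u0
  have h1 : ∀ j : Fin k, |((a j.succ : ℝ) / a 0) * ((u j.succ : ℝ) / u 0)| ≤ M * (u 0 : ℝ) ^ (-δ) := by
    intro j
    rw [abs_mul, abs_div, abs_of_nonneg (by positivity : (0 : ℝ) ≤ (u j.succ : ℝ) / u 0)]
    apply mul_le_mul _ _ (by positivity) (by positivity)
    · rw [div_le_iff₀ (by linarith [h.a0])]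
      have := h.aj j.succ
      have hM : (0 : ℝ) ≤ M := Nat.cast_nonneg _
      nlinarith [h.a0]
    · rw [div_le_iff₀ (by linarith)]
      refine (h.hd j).trans (le_of_eq ?_)
      conv_rhs => rw [← Real.rpow_one (u 0 : ℝ)]
      rw [← Real.rpow_mul (by linarith), one_mul, ← Real.rpow_add (by linarith)]
      congr 1
      ring
  unfold zz
  refine (abs_sum_le_sum_abs _ _).trans ((sum_le_sum fun j _ => h1 j).trans (le_of_eq ?_))
  rw [sum_const, card_univ, Fintype.card_fin, nsmul_eq_mul]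
  ring

lemma Dat.x_eq {k b M : ℕ} {δ : ℝ} {a : Fin (k + 1) → ℤ} {u : Fin (k + 1) → ℕ} {x : ℤ}
    (h : Dat k b M δ a u x) : (x : ℝ) = a 0 * u 0 * (1 + zz a u) := by
  have hu0 := h.u0
  have ha0 : (a 0 : ℝ) ≠ 0 := by exact_mod_cast h.ha0
  have hu0' : (u 0 : ℝ) ≠ 0 := by linarith
  rw [h.hx, Fin.sum_univ_succ]
  push_cast
  unfold zz
  rw [mul_add, mul_one, mul_sum]
  congr 1
  refine sum_congr rfl fun j _ => ?_
  field_simp

lemma Dat.x_le {k b M : ℕ} {δ : ℝ} (hδ : 0 < δ) {a : Fin (k + 1) → ℤ} {u : Fin (k + 1) → ℕ} {x : ℤ}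
    (h : Dat k b M δ a u x) : |(x : ℝ)| ≤ (k + 1) * (M * u 0) := by
  have hu0 := h.u0
  have h1 : ∀ j : Fin (k + 1), |(a j : ℝ) * u j| ≤ M * u 0 := by
    intro j
    rw [abs_mul, Nat.abs_cast]
    apply mul_le_mul (h.aj j) _ (Nat.cast_nonneg _) (Nat.cast_nonneg _)
    refine Fin.cases le_rfl (fun j => ?_) j
    refine (h.hd j).trans ?_
    conv_rhs => rw [← Real.rpow_one (u 0 : ℝ)]
    exact Real.rpow_le_rpow_of_exponent_le hu0 (by linarith)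
  rw [h.hx]
  push_cast
  refine (abs_sum_le_sum_abs _ _).trans ((sum_le_sum fun j _ => h1 j).trans (le_of_eq ?_))
  rw [sum_const, card_univ, Fintype.card_fin, nsmul_eq_mul]
  push_cast
  ring

lemma one_le_X {p q : ℕ} {x y : ℤ} (h : y ^ q ≠ x ^ p) (hp : p ≠ 0) (hq : q ≠ 0) :
    1 ≤ max (|(x : ℝ)| ^ p) (|(y : ℝ)| ^ q) := by
  by_cases hx : x = 0
  · have hy : y ≠ 0 := by
      rintro rfl
      apply h
      rw [hx, zero_pow hp, zero_pow hq]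
    refine le_trans ?_ (le_max_right _ _)
    apply one_le_pow₀
    rw [← Int.cast_abs]
    exact_mod_cast Int.one_le_abs hy
  · refine le_trans ?_ (le_max_left _ _)
    apply one_le_pow₀
    rw [← Int.cast_abs]
    exact_mod_cast Int.one_le_abs hx

lemma one_le_diff {p q : ℕ} {x y : ℤ} (h : y ^ q ≠ x ^ p) : 1 ≤ |(y : ℝ) ^ q - (x : ℝ) ^ p| := by
  have h1 : (1 : ℤ) ≤ |y ^ q - x ^ p| := Int.one_le_abs (sub_ne_zero.2 h)
  exact_mod_cast h1

/-- the first summand is unbounded in a sequence of counterexamples -/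
lemma unbounded {p q k b M : ℕ} (hp : 2 ≤ p) (hq : 2 ≤ q) {δ : ℝ} (hδ : 0 < δ) {θ : ℝ} (hθ0 : 0 < θ)
    (hθ1 : θ < 1) (a : ℕ → Fin (k + 1) → ℤ) (u : ℕ → Fin (k + 1) → ℕ) (x y : ℕ → ℤ)
    (hD : ∀ n, Dat k b M δ (a n) (u n) (x n)) (hne : ∀ n, (y n) ^ q ≠ (x n) ^ p)
    (hv : ∀ n : ℕ, |(y n : ℝ) ^ q - (x n : ℝ) ^ p| <
      1 / ((n : ℝ) + 1) * (max (|(x n : ℝ)| ^ p) (|(y n : ℝ)| ^ q)) ^ θ) (U : ℕ) : ∃ n, U < u n 0 := by
  by_contra hcon
  push Not at hcon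
  set B0 : ℝ := ((k + 1) * (M * U)) ^ p with hB0
  set T0 : ℝ := (2 : ℝ) ^ (1 / (1 - θ)) with hT0
  set B1 : ℝ := (max T0 (2 * B0)) ^ θ with hB1
  obtain ⟨n, hn⟩ := exists_nat_gt B1
  have hX1 := one_le_X (hne n) (by omega) (by omega)
  have hX0 : 0 < max (|(x n : ℝ)| ^ p) (|(y n : ℝ)| ^ q) := by linarith
  have hX : max (|(x n : ℝ)| ^ p) (|(y n : ℝ)| ^ q) ≤ max T0 (2 * B0) := by
    by_cases h1 : T0 ≤ max (|(x n : ℝ)| ^ p) (|(y n : ℝ)| ^ q)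
    · refine le_trans ?_ (le_max_right _ _)
      refine (max_le_two hθ1 h1 ?_).trans ?_
      · refine (hv n).le.trans ?_
        have h2 : 1 / ((n : ℝ) + 1) ≤ 1 := by
          rw [div_le_one (by positivity)]
          linarith [(Nat.cast_nonneg n : (0 : ℝ) ≤ n)]
        have h3 := Real.rpow_nonneg hX0.le θ
        nlinarith
      · have h4 := (hD n).x_le hδ
        have h5 : (u n 0 : ℝ) ≤ U := by exact_mod_cast hcon n
        have h6 : |(x n : ℝ)| ≤ (k + 1) * (M * U) := h4.trans (by gcongr)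
        rw [hB0]
        gcongr
    · exact (not_le.1 h1).le.trans (le_max_left _ _)
  have h7 := one_le_diff (hne n)
  have h8 := h7.trans_lt (hv n)
  have h9 := Real.rpow_le_rpow hX0.le hX hθ0.le
  have h10 : (0 : ℝ) < (n : ℝ) + 1 := by positivity
  rw [one_div_mul_eq_div, lt_div_iff₀ h10] at h8
  linarith

end Pool.Agent.NH26.DT
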