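import Pool.Agent.NH26.DT.Main

/-!
# Hall's inequality for integers with a dominating summand: the main theorem
-/

set_option autoImplicit false

namespace Pool.Agent.NH26.DT

open Finset Filter Topology Polynomial

/-- the monomial belonging to an index -/
def mon {k D : ℕ} (p w : ℕ) (u : Fin (k + 1) → ℕ) (f : Idx k D) : ℕ :=
  w ^ p * u 0 ^ (D - f.1.1) * ∏ l, u (f.2 l).succ

lemma mon_expand {k D : ℕ} (p w : ℕ) (a : Fin (k + 1) → ℤ) (u : Fin (k + 1) → ℕ) (hu : u 0 ≠ 0)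
    (S : ℚ[X]) (hS : S.natDegree ≤ D) (α : ℝ) :
    ∑ f : Idx k D, (α * (S.coeff f.1 : ℝ) * ∏ l, ((a (f.2 l).succ : ℝ) / a 0)) * (mon p w u f : ℝ) =
      (u 0 : ℝ) ^ D * (α * (w : ℝ) ^ p * aeval (zz a u) S) := by
  have hu' : (u 0 : ℝ) ≠ 0 := by exact_mod_cast hu
  unfold zz
  rw [expand k D S hS, mul_sum, mul_sum]
  refine sum_congr rfl fun f _ => ?_
  unfold mon
  push_cast
  rw [prod_mul_distrib, prod_div_distrib (f := fun l => ((u (f.2 l).succ : ℕ) : ℝ)), prod_const, card_univ,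
    Fintype.card_fin]
  have h1 : (u 0 : ℝ) ^ D = (u 0 : ℝ) ^ (D - f.1.1) * (u 0 : ℝ) ^ f.1.1 := by
    rw [← pow_add]
    congr 1
    have := f.1.2
    omega
  rw [h1]
  field_simp

lemma Smooth.mul {b u v : ℕ} (hu : Smooth b u) (hv : Smooth b v) : Smooth b (u * v) :=
  ⟨mul_ne_zero hu.1 hv.1, fun r hr h => ((hr.dvd_mul).1 h).elim (hu.2 r hr) (hv.2 r hr)⟩

lemma Smooth.pow {b u : ℕ} (hu : Smooth b u) (n : ℕ) : Smooth b (u ^ n) :=
  ⟨pow_ne_zero _ hu.1, fun r hr h => hu.2 r hr (hr.dvd_of_dvd_pow h)⟩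

lemma Smooth.prod {b : ℕ} {ι : Type} (s : Finset ι) (f : ι → ℕ) (h : ∀ i, Smooth b (f i)) :
    Smooth b (∏ i ∈ s, f i) := by
  classical
  induction s using Finset.induction_on with
  | empty => exact ⟨by simp, fun r hr h1 => by simp at h1; exact absurd h1 hr.ne_one⟩
  | insert i s hi ih => rw [Finset.prod_insert hi]; exact (h i).mul ih

lemma mon_smooth {k D b : ℕ} (p w : ℕ) (u : Fin (k + 1) → ℕ) (hw : Smooth b w) (hu : ∀ j, Smooth b (u j))
    (f : Idx k D) : Smooth b (mon p w u f) :=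
  ((hw.pow p).mul ((hu 0).pow _)).mul (Smooth.prod _ _ fun _ => hu _)

lemma mon_dvd {k D b m : ℕ} (hb : 2 ≤ b) (p w : ℕ) (u : Fin (k + 1) → ℕ) (hw : Smooth b w)
    (hu : ∀ j, Smooth b (u j)) (hwm : w ≤ b ^ m) (hum : ∀ j, u j ≤ b ^ m)
    (f : Idx k D) : mon p w u f ∣ b ^ (b * (p + D) * m) := by
  have h1 : w ^ p ∣ b ^ (b * m * p) := by
    rw [pow_mul]
    exact pow_dvd_pow_of_dvd (hw.dvd_pow hb hwm) p
  have h2 : u 0 ^ (D - f.1.1) ∣ b ^ (b * m * (D - f.1.1)) := by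
    rw [pow_mul]
    exact pow_dvd_pow_of_dvd ((hu 0).dvd_pow hb (hum 0)) _
  have h3 : (∏ l, u (f.2 l).succ) ∣ b ^ (b * m * f.1.1) := by
    have h4 : (∏ l, u (f.2 l).succ) ∣ ∏ _l : Fin f.1.1, b ^ (b * m) :=
      Finset.prod_dvd_prod_of_dvd _ _ fun l _ => (hu _).dvd_pow hb (hum _)
    rw [prod_const, card_univ, Fintype.card_fin, ← pow_mul] at h4
    exact h4
  have h5 := mul_dvd_mul (mul_dvd_mul h1 h2) h3
  rw [← pow_add, ← pow_add] at h5
  have h6 : b * m * p + b * m * (D - f.1.1) + b * m * f.1.1 = b * (p + D) * m := by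
    have h7 : D - f.1.1 + f.1.1 = D := by
      have := f.1.2
      omega
    calc _ = b * m * p + b * m * (D - f.1.1 + f.1.1) := by ring
      _ = _ := by rw [h7]; ring
  rw [h6] at h5
  exact h5

/-- **Hall's inequality for integers with a dominating summand.** -/
theorem dominant (p q k b M : ℕ) (hp : 2 ≤ p) (hq : 2 ≤ q) (hb : 2 ≤ b) (δ ε : ℝ) (hδ : 0 < δ)
    (hε : 0 < ε) : ∃ c : ℝ, 0 < c ∧ ∀ (a : Fin (k + 1) → ℤ) (u : Fin (k + 1) → ℕ) (x y : ℤ),
      Dat k b M δ a u x → y ^ q ≠ x ^ p →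
      c * (max (|(x : ℝ)| ^ p) (|(y : ℝ)| ^ q)) ^ (1 - 1 / (p : ℝ) - 1 / (q : ℝ) - ε) ≤
        |(y : ℝ) ^ q - (x : ℝ) ^ p| := by
  classical
  have hpr : (2 : ℝ) ≤ p := by exact_mod_cast hp
  have hqr : (2 : ℝ) ≤ q := by exact_mod_cast hq
  have hpi0 : 0 < 1 / (p : ℝ) := by positivity
  have hqi0 : 0 < 1 / (q : ℝ) := by positivity
  set θ : ℝ := 1 - 1 / (p : ℝ) - 1 / (q : ℝ) - ε with hθ
  have hθ1 : θ < 1 := by rw [hθ]; linarith
  by_cases hθ0 : θ ≤ 0
  · refine ⟨1, one_pos, fun a u x y _ hne => ?_⟩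
    rw [one_mul]
    exact (Real.rpow_le_one_of_one_le_of_nonpos (one_le_X hne (by omega) (by omega)) hθ0).trans
      (one_le_diff hne)
  push Not at hθ0
  by_contra hcon
  push Not at hcon
  have hdat : ∀ n : ℕ, ∃ (a : Fin (k + 1) → ℤ) (u : Fin (k + 1) → ℕ) (x y : ℤ),
      Dat k b M δ a u x ∧ y ^ q ≠ x ^ p ∧ |(y : ℝ) ^ q - (x : ℝ) ^ p| <
        1 / ((n : ℝ) + 1) * (max (|(x : ℝ)| ^ p) (|(y : ℝ)| ^ q)) ^ θ := fun n =>
    hcon (1 / ((n : ℝ) + 1)) (by positivity)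
  choose a u x y hD hne hv using hdat
  have hunb := unbounded hp hq hδ hθ0 hθ1 a u x y hD hne hv
  set X : ℕ → ℝ := fun n => max (|(x n : ℝ)| ^ p) (|(y n : ℝ)| ^ q) with hX
  have hX1 : ∀ n, 1 ≤ X n := fun n => one_le_X (hne n) (by omega) (by omega)
  have hvX : ∀ n, |(y n : ℝ) ^ q - (x n : ℝ) ^ p| ≤ X n ^ θ := by
    intro n
    refine (hv n).le.trans ?_
    have h2 : 1 / ((n : ℝ) + 1) ≤ 1 := by
      rw [div_le_one (by positivity)]
      linarith [(Nat.cast_nonneg n : (0 : ℝ) ≤ n)]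
    have h3 : 0 ≤ X n ^ θ := Real.rpow_nonneg (by linarith [hX1 n]) θ
    calc 1 / ((n : ℝ) + 1) * X n ^ θ ≤ 1 * X n ^ θ := mul_le_mul_of_nonneg_right h2 h3
      _ = _ := one_mul _
  -- the sizes
  set P : ℕ → Prop := fun m => ∃ n, Nat.clog b (u n 0) = m with hP
  have hPf : ∃ᶠ m in atTop, P m := by
    rw [frequently_atTop]
    intro m0
    obtain ⟨n, hn⟩ := hunb (b ^ m0)
    exact ⟨Nat.clog b (u n 0), ((Nat.lt_clog_iff_pow_lt (by omega)).2 hn).le, n, rfl⟩
  have hex : ∀ m, P m → ∃ n, Nat.clog b (u n 0) = m := fun m h => h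
  choose! ν hν using hex
  have hdec : ∀ m, ∃ r w : ℕ, u (ν m) 0 = r * w ^ q ∧ r ∣ b ^ q ∧ 0 < r ∧ 0 < w := fun m =>
    ((hD (ν m)).hu 0).decomp hb q (by omega)
  choose r w hrw hrb hr0 hw0 using hdec
  -- the pigeonhole
  have hcode : ∀ m j, (a (ν m) j + M).toNat < 2 * M + 1 := by
    intro m j
    have := (hD (ν m)).ha j
    rw [abs_le] at this
    omega
  have hcode2 : ∀ m, r m < b ^ q + 1 := fun m =>
    Nat.lt_succ_of_le (Nat.le_of_dvd (pow_pos (by omega) _) (hrb m))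
  obtain ⟨t, ht⟩ := freq_pigeon hPf (fun m => ((fun j => ⟨(a (ν m) j + M).toNat, hcode m j⟩, ⟨r m, hcode2 m⟩) :
    (Fin (k + 1) → Fin (2 * M + 1)) × Fin (b ^ q + 1)))
  set A : Fin (k + 1) → ℤ := fun j => ((t.1 j : ℕ) : ℤ) - M with hA
  set R : ℕ := (t.2 : ℕ) with hR
  obtain ⟨D, S, hS, C, U0, hC, hU0, hclose⟩ := close p q k M hp hq δ hδ
  obtain ⟨m1, hm1⟩ := pow_unbounded_of_one_lt (b * U0) (by exact_mod_cast (by omega : 1 < b) : (1 : ℝ) < b)
  set P1 : ℕ → Prop := fun m => P m ∧ (∀ j, a (ν m) j = A j) ∧ r m = R ∧ m1 + 1 ≤ m with hP1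
  have hP1f : ∃ᶠ m in atTop, P1 m := by
    refine (ht.and_eventually (eventually_ge_atTop (m1 + 1))).mono ?_
    rintro m ⟨⟨h1, h2⟩, h3⟩
    refine ⟨h1, fun j => ?_, ?_, h3⟩
    · have h4 := congrArg (fun s => ((s.1 j : ℕ) : ℤ)) h2
      simp only at h4
      rw [Int.toNat_of_nonneg (by
        have := (hD (ν m)).ha j
        rw [abs_le] at this
        omega)] at h4
      rw [hA]
      simp only
      omega
    · have h4 := congrArg (fun s => (s.2 : ℕ)) h2
      exact h4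
  have hb1 : (1 : ℝ) < b := by exact_mod_cast (by omega : 1 < b)
  have hb0 : (0 : ℝ) < b := by linarith
  have hup : ∀ m, P1 m → u (ν m) 0 ≤ b ^ m := by
    intro m hm
    have h1 := Nat.le_pow_clog (by omega : 1 < b) (u (ν m) 0)
    rwa [hν m hm.1] at h1
  have hlow : ∀ m, P1 m → (b : ℝ) ^ m ≤ b * u (ν m) 0 := by
    intro m hm
    have h0 : 1 < u (ν m) 0 := by
      by_contra hcon2
      have h2 : Nat.clog b (u (ν m) 0) = 0 := Nat.clog_of_right_le_one (by omega) b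
      rw [hν m hm.1] at h2
      have := hm.2.2.2
      omega
    have h1 := Nat.pow_pred_clog_lt_self (by omega : 1 < b) h0
    rw [hν m hm.1, Nat.pred_eq_sub_one] at h1
    have h2 : b ^ m ≤ b * u (ν m) 0 := by
      have h3 : b ^ m = b * b ^ (m - 1) := by
        rw [← pow_succ']
        congr 1
        have := hm.2.2.2
        omega
      rw [h3]
      exact Nat.mul_le_mul_left b h1.le
    exact_mod_cast h2
  have hUm : ∀ m, P1 m → U0 ≤ u (ν m) 0 := by
    intro m hm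
    have h1 := hlow m hm
    have h2 : (b : ℝ) ^ m1 ≤ (b : ℝ) ^ m := pow_le_pow_right₀ hb1.le (by
      have := hm.2.2.2
      omega)
    have h3 : (b : ℝ) * U0 ≤ b * u (ν m) 0 := by linarith
    exact le_of_mul_le_mul_left h3 hb0
  -- the linear form
  set e := Fintype.equivFin (Idx k D) with he
  set N := Fintype.card (Idx k D) with hN
  set α : ℝ := (|(A 0 : ℝ)| * R) ^ ((p : ℝ) / q) with hα
  set γ : Idx k D → ℝ := fun f => α * (S.coeff f.1 : ℝ) * ∏ l, ((A (f.2 l).succ : ℝ) / A 0) with hγ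
  have hαalg : IsAlgebraic ℚ α := by
    have h1 : α ^ q = (|(A 0 : ℝ)| * R) ^ p := by
      rw [hα, ← Real.rpow_natCast, ← Real.rpow_mul (by positivity), div_mul_cancel₀ _ (by positivity),
        Real.rpow_natCast]
    have h2 : IsAlgebraic ℚ (α ^ q) := by
      rw [h1]
      have h3 : (|(A 0 : ℝ)| * R) ^ p = algebraMap ℚ ℝ ((|(A 0 : ℚ)| * R) ^ p) := by
        simp
      rw [h3]
      exact isAlgebraic_algebraMap _
    exact h2.of_pow (by omega)
  have hγalg : ∀ f, IsAlgebraic ℚ (γ f) := by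
    intro f
    rw [hγ]
    simp only
    rw [mul_assoc]
    apply hαalg.mul
    have h3 : (S.coeff f.1 : ℝ) * ∏ l, ((A (f.2 l).succ : ℝ) / A 0) =
        algebraMap ℚ ℝ ((S.coeff f.1 : ℚ) * ∏ l, ((A (f.2 l).succ : ℚ) / A 0)) := by
      simp
    rw [h3]
    exact isAlgebraic_algebraMap _
  have hzA : ∀ m, P1 m → zz (a (ν m)) (u (ν m)) = zz A (u (ν m)) := by
    intro m hm
    have h1 : a (ν m) = A := funext hm.2.1
    rw [h1]
  have hmain : ∀ m, P1 m → (u (ν m) 0 : ℝ) / 2 ≤ |(x (ν m) : ℝ)| ∧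
      |(|(y (ν m) : ℝ)|) - α * (w m : ℝ) ^ p * aeval (zz A (u (ν m))) S| ≤ C / u (ν m) 0 := by
    intro m hm
    have h1 := hclose (|(A 0 : ℝ)|) (u (ν m) 0) (zz A (u (ν m))) (x (ν m)) (y (ν m)) (r m) (w m)
      (by rw [← hm.2.1 0]; exact (hD (ν m)).a0) (by rw [← hm.2.1 0]; exact (hD (ν m)).aj 0) (hUm m hm)
      (by rw [← hzA m hm]; exact (hD (ν m)).z_le)
      (by
        rw [(hD (ν m)).x_eq, abs_mul, abs_mul, hzA m hm, hm.2.1 0, Nat.abs_cast])
      (by exact_mod_cast hr0 m) (by exact_mod_cast hw0 m) (by exact_mod_cast hrw m)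
      (by
        refine (hvX (ν m)).trans ?_
        exact Real.rpow_le_rpow_of_exponent_le (hX1 _) (by rw [hθ]; linarith))
    rw [hm.2.2.1] at h1
    exact ⟨h1.1, h1.2⟩
  have hwsm : ∀ m, Smooth b (w m) := fun m => ((hD (ν m)).hu 0).dvd (by
    rw [hrw m]
    exact (dvd_pow_self _ (by omega)).trans (dvd_mul_left _ _))
  have hwle : ∀ m, w m ≤ u (ν m) 0 := fun m => Nat.le_of_dvd (Nat.pos_of_ne_zero ((hD (ν m)).hu 0).1) (by
    rw [hrw m]
    exact (dvd_pow_self _ (by omega)).trans (dvd_mul_left _ _))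
  have hule : ∀ m j, u (ν m) j ≤ u (ν m) 0 := by
    intro m j
    refine Fin.cases le_rfl (fun j => ?_) j
    have h1 := (hD (ν m)).hd j
    have h2 : (u (ν m) j.succ : ℝ) ≤ u (ν m) 0 := by
      refine h1.trans ?_
      conv_rhs => rw [← Real.rpow_one (u (ν m) 0 : ℝ)]
      exact Real.rpow_le_rpow_of_exponent_le (hD (ν m)).u0 (by linarith)
    exact_mod_cast h2
  obtain ⟨c, hc⟩ := approx b hb (b * (p + D)) N (fun i => γ (e.symm i)) (fun i => hγalg _) P1 hP1f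
    (fun m => |y (ν m)|) (fun m => u (ν m) 0 ^ D) (fun m i => ((mon p (w m) (u (ν m)) (e.symm i) : ℕ) : ℤ))
    (by
      intro m hm
      have h1 := ((hD (ν m)).hu 0).dvd_pow hb (hup m hm)
      have h2 := pow_dvd_pow_of_dvd h1 D
      rw [← pow_mul] at h2
      refine h2.trans (pow_dvd_pow _ ?_)
      nlinarith [Nat.zero_le (b * p * m)])
    (by
      intro m i hm
      rw [Int.natAbs_natCast]
      exact mon_dvd hb p (w m) (u (ν m)) (hwsm m) (hD (ν m)).hu ((hwle m).trans (hup m hm))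
        (fun j => (hule m j).trans (hup m hm)) _)
    1 (C * b) one_pos (by positivity) (by
      intro m hm
      have h1 : ∑ i, γ (e.symm i) * (((mon p (w m) (u (ν m)) (e.symm i) : ℕ) : ℤ) : ℝ) =
          (u (ν m) 0 : ℝ) ^ D * (α * (w m : ℝ) ^ p * aeval (zz A (u (ν m))) S) := by
        rw [← mon_expand p (w m) A (u (ν m)) ((hD (ν m)).hu 0).1 S hS α,
          Equiv.sum_comp e.symm (fun f => γ f * (((mon p (w m) (u (ν m)) f : ℕ) : ℤ) : ℝ))]
        refine sum_congr rfl fun f _ => ?_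
        rw [hγ]
        simp
      rw [h1]
      push_cast
      rw [← mul_sub, abs_mul, abs_of_nonneg (by positivity : (0 : ℝ) ≤ (u (ν m) 0 : ℝ) ^ D)]
      have h2 := (hmain m hm).2
      have hu0 := (hD (ν m)).u0
      have h3 : C / u (ν m) 0 ≤ C * b * (b : ℝ) ^ (-(1 * (m : ℝ))) := by
        rw [one_mul, Real.rpow_neg hb0.le, Real.rpow_natCast, div_le_iff₀ (by linarith)]
        have h4 := hlow m hm
        have h5 : (1 : ℝ) ≤ b * ((b : ℝ) ^ m)⁻¹ * u (ν m) 0 := by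
          rw [mul_comm (b : ℝ), mul_assoc, ← div_eq_inv_mul, one_le_div (by positivity)]
          exact h4
        calc C = C * 1 := (mul_one _).symm
          _ ≤ C * (b * ((b : ℝ) ^ m)⁻¹ * u (ν m) 0) := mul_le_mul_of_nonneg_left h5 hC.le
          _ = _ := by ring
      calc (u (ν m) 0 : ℝ) ^ D * |(|(y (ν m) : ℝ)|) - α * (w m : ℝ) ^ p * aeval (zz A (u (ν m))) S| ≤
            (u (ν m) 0 : ℝ) ^ D * (C * b * (b : ℝ) ^ (-(1 * (m : ℝ)))) := by
            apply mul_le_mul_of_nonneg_left (h2.trans h3) (by positivity)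
        _ = _ := by ring)
  -- the coefficients
  set Den : ℕ := ∏ i, (c i).den with hDen
  have hDen0 : Den ≠ 0 := Finset.prod_ne_zero_iff.2 fun i _ => (c i).den_nz
  have hcI : ∀ i, ∃ z : ℤ, (z : ℚ) = c i * Den := by
    intro i
    obtain ⟨K, hK⟩ := Finset.dvd_prod_of_mem (fun i => (c i).den) (mem_univ i)
    refine ⟨(c i).num * K, ?_⟩
    rw [hDen, hK]
    push_cast
    rw [← mul_assoc, Rat.mul_den_eq_num]
  choose cI hcI using hcI
  set N0 : ℕ := b * Den with hN0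
  have hN00 : N0 ≠ 0 := mul_ne_zero (by omega) hDen0
  have hsm : ∀ v, Smooth b v → Smooth N0 v := fun v hv => ⟨hv.1, fun r hr h => (hv.2 r hr h).trans (dvd_mul_right _ _)⟩
  have hsD : Smooth N0 Den := ⟨hDen0, fun r hr h => h.trans (dvd_mul_left _ _)⟩
  set e2 := Fintype.equivFin (Fin (k + 1) ⊕ Fin N) with he2
  set K1 := Fintype.card (Fin (k + 1) ⊕ Fin N) with hK1
  obtain ⟨K, hK0, hK⟩ := TH551.HA.hallPow p q K1 (by omega) (by omega) (GG N0) (GG_fg N0) (ε / 2) (by positivity)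
  set M' : ℝ := 1 + M + ∑ i, |(cI i : ℝ)| with hM'
  have hM'1 : 1 ≤ M' := by
    rw [hM']
    have : 0 ≤ ∑ i, |(cI i : ℝ)| := sum_nonneg fun i _ => abs_nonneg _
    have := (Nat.cast_nonneg M : (0 : ℝ) ≤ M)
    linarith
  have hbound : ∀ m, (P1 m ∧ (((u (ν m) 0 ^ D : ℕ) : ℚ) * ((|y (ν m)| : ℤ) : ℚ) =
      ∑ i, c i * (((mon p (w m) (u (ν m)) (e.symm i) : ℕ) : ℤ) : ℚ))) → X (ν m) ^ (ε / 2) ≤ (K * M') ^ K := by
    rintro m ⟨hm, hrel⟩
    set Z : Fin N → ℕ := fun i => mon p (w m) (u (ν m)) (e.symm i) with hZ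
    have hZs : ∀ i, Smooth b (Z i) := fun i => mon_smooth p (w m) (u (ν m)) (hwsm m) (hD (ν m)).hu _
    have hZ0 : ∀ i, (Z i : ℚ) ≠ 0 := fun i => by exact_mod_cast (hZs i).1
    have hu0 : ∀ j, (u (ν m) j : ℚ) ≠ 0 := fun j => by exact_mod_cast ((hD (ν m)).hu j).1
    have hBD : ((u (ν m) 0 ^ D * Den : ℕ) : ℚ) ≠ 0 := by
      exact_mod_cast mul_ne_zero (pow_ne_zero _ ((hD (ν m)).hu 0).1) hDen0
    set UU : Fin (k + 1) ⊕ Fin N → GG N0 := fun s => Sum.elim
      (fun j => ⟨Units.mk0 (u (ν m) j : ℚ) (hu0 j), GG_mem N0 hN00 _ (hsm _ ((hD (ν m)).hu j)) _ rfl⟩)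
      (fun i => ⟨Units.mk0 (Z i : ℚ) (hZ0 i) * (Units.mk0 ((u (ν m) 0 ^ D * Den : ℕ) : ℚ) hBD)⁻¹,
        mul_mem (GG_mem N0 hN00 _ (hsm _ (hZs i)) _ rfl)
          (inv_mem (GG_mem N0 hN00 _ ((hsm _ (((hD (ν m)).hu 0).pow D)).mul hsD) _ rfl))⟩) s with hUU
    set σ : ℤ := Int.sign (y (ν m)) with hσ
    set AC : Fin (k + 1) ⊕ Fin N → ℤ := Sum.elim (fun j => a (ν m) j) (fun _ => 0) with hAC
    set CC : Fin (k + 1) ⊕ Fin N → ℤ := Sum.elim (fun _ => 0) (fun i => σ * cI i) with hCC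
    have hxx : (x (ν m) : ℚ) = ∑ s, ((UU s : ℚˣ) : ℚ) * AC s := by
      rw [Fintype.sum_sum_type]
      simp only [hUU, hAC, Sum.elim_inl, Sum.elim_inr, Int.cast_zero, mul_zero, sum_const_zero, add_zero,
        Units.val_mk0]
      rw [(hD (ν m)).hx]
      push_cast
      refine sum_congr rfl fun j _ => ?_
      ring
    have hyy : (y (ν m) : ℚ) = ∑ s, ((UU s : ℚˣ) : ℚ) * CC s := by
      rw [Fintype.sum_sum_type]
      simp only [hUU, hCC, Sum.elim_inl, Sum.elim_inr, Int.cast_zero, mul_zero, sum_const_zero, zero_add,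
        Units.val_mul, Units.val_mk0, Units.val_inv_eq_inv_val]
      have h1 : ((|y (ν m)| : ℤ) : ℚ) = ∑ i, (Z i : ℚ) * ((u (ν m) 0 ^ D * Den : ℕ) : ℚ)⁻¹ * cI i := by
        have h2 : ((u (ν m) 0 ^ D : ℕ) : ℚ) ≠ 0 := by
          exact_mod_cast pow_ne_zero _ ((hD (ν m)).hu 0).1
        have h3 : (Den : ℚ) ≠ 0 := by exact_mod_cast hDen0
        apply mul_left_cancel₀ h2
        rw [hrel, mul_sum]
        refine sum_congr rfl fun i _ => ?_
        rw [hcI i]
        push_cast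
        push_cast at h2
        simp only [hZ]
        field_simp
      have h4 : (y (ν m) : ℚ) = σ * ((|y (ν m)| : ℤ) : ℚ) := by
        exact_mod_cast (Int.sign_mul_abs (y (ν m))).symm
      rw [h4, h1, mul_sum]
      refine sum_congr rfl fun i _ => ?_
      push_cast
      ring
    have h1 := hK M' hM'1 (fun j => UU (e2.symm j)) (fun j => AC (e2.symm j)) (fun j => CC (e2.symm j)) ?_ ?_
      (x (ν m)) (y (ν m)) ?_ ?_ (hne (ν m))
    · have hX0 : 0 < X (ν m) := by linarith [hX1 (ν m)]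
      have h2 : X (ν m) ^ (1 - 1 / (p : ℝ) - 1 / (q : ℝ) - ε / 2) ≤ (K * M') ^ K * X (ν m) ^ θ := by
        refine h1.trans ?_
        apply mul_le_mul_of_nonneg_left (hvX (ν m))
        exact Real.rpow_nonneg (by positivity) _
      have h3 : (1 - 1 / (p : ℝ) - 1 / (q : ℝ) - ε / 2) = ε / 2 + θ := by
        rw [hθ]
        ring
      rw [h3, Real.rpow_add hX0] at h2
      exact le_of_mul_le_mul_right h2 (Real.rpow_pos_of_pos hX0 _)
    · intro j
      rcases e2.symm j with j | i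
      · simp only [hAC, Sum.elim_inl]
        have h2 := (hD (ν m)).aj j
        have h3 : 0 ≤ ∑ i, |(cI i : ℝ)| := sum_nonneg fun i _ => abs_nonneg _
        rw [hM']
        linarith
      · simp only [hAC, Sum.elim_inr]
        rw [Int.cast_zero, abs_zero]
        linarith
    · intro j
      rcases e2.symm j with j | i
      · simp only [hCC, Sum.elim_inl]
        rw [Int.cast_zero, abs_zero]
        linarith
      · simp only [hCC, Sum.elim_inr]
        have h2 : |((σ * cI i : ℤ) : ℝ)| ≤ |(cI i : ℝ)| := by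
          push_cast
          rw [abs_mul]
          have h3 : |(σ : ℝ)| ≤ 1 := by
            rw [← Int.cast_abs]
            have : |σ| ≤ 1 := by
              rw [hσ]
              rcases lt_trichotomy (y (ν m)) 0 with h | h | h
              · rw [Int.sign_eq_neg_one_of_neg h]; simp
              · rw [h]; simp
              · rw [Int.sign_eq_one_of_pos h]; simp
            exact_mod_cast this
          nlinarith [abs_nonneg (cI i : ℝ)]
        refine h2.trans ?_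
        rw [hM']
        have h4 : |(cI i : ℝ)| ≤ ∑ i, |(cI i : ℝ)| := single_le_sum (f := fun i => |(cI i : ℝ)|)
          (fun i _ => abs_nonneg _) (mem_univ i)
        have := (Nat.cast_nonneg M : (0 : ℝ) ≤ M)
        linarith
    · rw [hxx, Equiv.sum_comp e2.symm (fun s => ((UU s : ℚˣ) : ℚ) * AC s)]
    · rw [hyy, Equiv.sum_comp e2.symm (fun s => ((UU s : ℚˣ) : ℚ) * CC s)]
  -- the end
  have hlim : Tendsto (fun m : ℕ => ((b : ℝ) ^ m / (2 * b)) ^ (ε / 2)) atTop atTop := by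
    apply (tendsto_rpow_atTop (by positivity : 0 < ε / 2)).comp
    exact (tendsto_pow_atTop_atTop_of_one_lt hb1).atTop_div_const (by positivity)
  obtain ⟨m, ⟨hm, hrel⟩, hbig⟩ := (hc.and_eventually (hlim.eventually_gt_atTop ((K * M') ^ K))).exists
  have h1 := hbound m ⟨hm, hrel⟩
  have h2 : (b : ℝ) ^ m / (2 * b) ≤ X (ν m) := by
    have h3 := (hmain m hm).1
    have h4 := hlow m hm
    have h5 : (b : ℝ) ^ m / (2 * b) ≤ u (ν m) 0 / 2 := by
      rw [div_le_div_iff₀ (by positivity) (by norm_num)]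
      linarith
    by_cases h6 : (1 : ℝ) ≤ |(x (ν m) : ℝ)|
    · refine (h5.trans h3).trans ((le_self_pow₀ h6 (by omega)).trans (le_max_left _ _))
    · push Not at h6
      linarith [hX1 (ν m)]
  have h3 : ((b : ℝ) ^ m / (2 * b)) ^ (ε / 2) ≤ X (ν m) ^ (ε / 2) :=
    Real.rpow_le_rpow (by positivity) h2 (by positivity)
  linarith

end Pool.Agent.NH26.DT
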