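import Mathlib

/-!
# Taylor polynomials of roots, smooth numbers, expansions
-/

set_option autoImplicit false

namespace Pool.Agent.NH26.DT

open Finset Polynomial

/-- the Taylor polynomial of `(1 + z) ^ (p / q)` -/
lemma exists_root (p q : ℕ) (hq : 1 ≤ q) : ∀ D : ℕ, ∃ S R : ℚ[X], S.natDegree ≤ D ∧ S.coeff 0 = 1 ∧
    S ^ q = (1 + X) ^ p + X ^ (D + 1) * R := by
  have hq0 : (q : ℚ) ≠ 0 := by exact_mod_cast (by omega : q ≠ 0)
  intro D
  induction D with
  | zero =>
    have h1 : (X : ℚ[X]) ∣ 1 - (1 + X) ^ p := by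
      rw [X_dvd_iff, coeff_zero_eq_eval_zero]
      simp
    obtain ⟨R, hR⟩ := h1
    refine ⟨1, R, by simp, by simp, ?_⟩
    rw [one_pow, zero_add, pow_one, ← hR]
    ring
  | succ D ih =>
    obtain ⟨S, R, h1, h2, h3⟩ := ih
    set c : ℚ := -R.coeff 0 / q with hc
    set T : ℚ[X] := C c * X ^ (D + 1) with hT
    obtain ⟨k, hk⟩ := Polynomial.powAddExpansion S T q
    have h4 : (X : ℚ[X]) ∣ R + C (q * c) * S ^ (q - 1) + k * C (c ^ 2) * X ^ (D + 1) := by
      rw [X_dvd_iff, coeff_zero_eq_eval_zero]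
      simp only [eval_add, eval_mul, eval_pow, eval_C, eval_X]
      rw [← coeff_zero_eq_eval_zero R, ← coeff_zero_eq_eval_zero S, h2, one_pow, hc]
      rw [zero_pow (by omega)]
      field_simp
      ring
    obtain ⟨R', hR'⟩ := h4
    refine ⟨S + T, R', ?_, ?_, ?_⟩
    · refine (natDegree_add_le _ _).trans (max_le (by omega) ?_)
      exact natDegree_C_mul_X_pow_le _ _
    · rw [coeff_add, h2, hT, coeff_C_mul, coeff_X_pow, if_neg (by omega), mul_zero, add_zero]
    · have h5 : X ^ (D + 1 + 1) * R' = X ^ (D + 1) * (X * R') := by ring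
      rw [hk, h3, h5, ← hR', hT]
      simp only [map_mul, map_natCast, map_pow]
      ring

/-- the bound for the Taylor polynomial -/
lemma root_bound (p q D : ℕ) (hq : 1 ≤ q) : ∃ S : ℚ[X], S.natDegree ≤ D ∧ ∃ C r : ℝ, 0 < C ∧ 0 < r ∧
    ∀ z : ℝ, |z| ≤ r → |(aeval z S) ^ q - (1 + z) ^ p| ≤ C * |z| ^ (D + 1) ∧
      1 / 2 ≤ aeval z S := by
  obtain ⟨S, R, h1, h2, h3⟩ := exists_root p q hq D
  have hcR : Continuous fun z : ℝ => aeval z R := by
    simp only [← eval_map_algebraMap]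
    exact (R.map (algebraMap ℚ ℝ)).continuous
  have hcS : Continuous fun z : ℝ => aeval z S := by
    simp only [← eval_map_algebraMap]
    exact (S.map (algebraMap ℚ ℝ)).continuous
  obtain ⟨C, hC⟩ := (isCompact_Icc (a := (-1 : ℝ)) (b := 1)).exists_bound_of_continuousOn hcR.continuousOn
  have hS0 : aeval (0 : ℝ) S = 1 := by
    rw [← eval_map_algebraMap, ← coeff_zero_eq_eval_zero, coeff_map, h2, map_one]
  have h4 : ∀ᶠ z in nhds (0 : ℝ), 1 / 2 < aeval z S := by
    apply hcS.continuousAt.eventually_const_lt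
    simp only [hS0]
    norm_num
  obtain ⟨r, hr, hr'⟩ := Metric.eventually_nhds_iff.1 h4
  refine ⟨S, h1, max C 1, min 1 (r / 2), by positivity, by positivity, fun z hz => ?_⟩
  have hz1 : |z| ≤ 1 := hz.trans (min_le_left _ _)
  have hz2 : |z| < r := lt_of_le_of_lt (hz.trans (min_le_right _ _)) (by linarith)
  refine ⟨?_, (hr' (by rwa [dist_zero_right, Real.norm_eq_abs])).le⟩
  have h5 : (aeval z S) ^ q - (1 + z) ^ p = z ^ (D + 1) * aeval z R := by
    have h6 := congrArg (aeval z) h3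
    simp only [map_pow, map_add, map_one, map_mul, aeval_X] at h6
    rw [h6]
    ring
  rw [h5, abs_mul, abs_pow, mul_comm]
  apply mul_le_mul_of_nonneg_right _ (by positivity)
  have h7 := hC z (abs_le.1 hz1)
  rw [Real.norm_eq_abs] at h7
  exact h7.trans (le_max_left _ _)

/-- all prime factors divide `b` -/
def Smooth (b u : ℕ) : Prop := u ≠ 0 ∧ ∀ r : ℕ, r.Prime → r ∣ u → r ∣ b

lemma Smooth.dvd {b u v : ℕ} (h : Smooth b u) (hv : v ∣ u) : Smooth b v :=
  ⟨fun h0 => h.1 (by rw [h0] at hv; exact Nat.eq_zero_of_zero_dvd hv), fun r hr hrv => h.2 r hr (hrv.trans hv)⟩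

/-- a smooth number of size at most `b ^ m` divides `b ^ (b * m)` -/
lemma Smooth.dvd_pow {b u m : ℕ} (hb : 2 ≤ b) (h : Smooth b u) (hu : u ≤ b ^ m) : u ∣ b ^ (b * m) := by
  have hb0 : b ^ (b * m) ≠ 0 := pow_ne_zero _ (by omega)
  rw [← Nat.factorization_le_iff_dvd h.1 hb0]
  intro r
  by_cases hr : r.Prime
  · by_cases hru : r ∣ u
    · have h1 : r ^ (u.factorization r) ∣ u := Nat.ordProj_dvd u r
      have h2 : r ^ (u.factorization r) ≤ u := Nat.le_of_dvd (Nat.pos_of_ne_zero h.1) h1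
      have h3 : 2 ^ (u.factorization r) ≤ r ^ (u.factorization r) := Nat.pow_le_pow_left hr.two_le _
      have h4 : b ^ m ≤ 2 ^ (b * m) := by
        rw [pow_mul]
        exact Nat.pow_le_pow_left (Nat.lt_two_pow_self).le _
      have h5 : u.factorization r ≤ b * m := (Nat.pow_le_pow_iff_right (by norm_num)).1 ((h3.trans h2).trans (hu.trans h4))
      rw [Nat.factorization_pow]
      have h6 : 1 ≤ b.factorization r := (hr.dvd_iff_one_le_factorization (by omega)).1 (h.2 r hr hru)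
      simp only [Finsupp.smul_apply, smul_eq_mul]
      nlinarith
    · rw [Nat.factorization_eq_zero_of_not_dvd hru]
      exact Nat.zero_le _
  · rw [Nat.factorization_eq_zero_of_not_prime _ hr]
    exact Nat.zero_le _

/-- the `q`-th power part -/
lemma Smooth.decomp {b u : ℕ} (hb : 2 ≤ b) (h : Smooth b u) (q : ℕ) (hq : 1 ≤ q) :
    ∃ r w : ℕ, u = r * w ^ q ∧ r ∣ b ^ q ∧ 0 < r ∧ 0 < w := by
  have hsub : u.primeFactors ⊆ b.primeFactors := by
    intro r hr
    rw [Nat.mem_primeFactors] at hr ⊢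
    exact ⟨hr.1, h.2 r hr.1 hr.2.1, by omega⟩
  have hu : u = ∏ r ∈ b.primeFactors, r ^ (u.factorization r) := by
    conv_lhs => rw [← Nat.prod_factorization_pow_eq_self h.1]
    rw [Finsupp.prod]
    apply Finset.prod_subset hsub
    intro r _ hr
    have hr' : u.factorization r = 0 := by
      rw [← Finsupp.notMem_support_iff, Nat.support_factorization]
      exact hr
    rw [hr', pow_zero]
  have hpos : ∀ r ∈ b.primeFactors, 0 < r := fun r hr => (Nat.prime_of_mem_primeFactors hr).pos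
  refine ⟨∏ r ∈ b.primeFactors, r ^ (u.factorization r % q), ∏ r ∈ b.primeFactors, r ^ (u.factorization r / q),
    ?_, ?_, ?_, ?_⟩
  · rw [← Finset.prod_pow, ← Finset.prod_mul_distrib]
    conv_lhs => rw [hu]
    refine Finset.prod_congr rfl fun r _ => ?_
    rw [← pow_mul, ← pow_add, mul_comm (u.factorization r / q) q, Nat.mod_add_div]
  · have h1 : (∏ r ∈ b.primeFactors, r ^ (u.factorization r % q)) ∣ ∏ r ∈ b.primeFactors, r ^ q :=
      Finset.prod_dvd_prod_of_dvd _ _ fun r _ => pow_dvd_pow _ (Nat.mod_lt _ (by omega)).le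
    rw [Finset.prod_pow] at h1
    exact h1.trans (pow_dvd_pow_of_dvd (Nat.prod_primeFactors_dvd b) q)
  · exact Finset.prod_pos fun r hr => pow_pos (hpos r hr) _
  · exact Finset.prod_pos fun r hr => pow_pos (hpos r hr) _

/-- the index set of the monomials -/
abbrev Idx (k D : ℕ) : Type := Σ i : Fin (D + 1), (Fin i.1 → Fin k)

/-- the expansion of a polynomial at a sum -/
lemma expand (k D : ℕ) (S : ℚ[X]) (hS : S.natDegree ≤ D) (t : Fin k → ℝ) :
    aeval (∑ j, t j) S = ∑ f : Idx k D, (S.coeff f.1 : ℝ) * ∏ l, t (f.2 l) := by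
  rw [← eval_map_algebraMap, eval_eq_sum_range' (n := D + 1) (by
    rw [natDegree_map]; omega), Finset.sum_range, Fintype.sum_sigma]
  refine Finset.sum_congr rfl fun i _ => ?_
  rw [Fintype.sum_pow, coeff_map, mul_sum]
  rfl

/-- the group generated by the prime factors of `N` -/
def GG (N : ℕ) : Subgroup ℚˣ := Subgroup.closure {g : ℚˣ | ∃ r ∈ N.primeFactors, (g : ℚ) = r}

lemma GG_fg (N : ℕ) : (GG N).FG := by
  rw [Subgroup.fg_iff]
  refine ⟨_, rfl, ?_⟩
  have h1 : {g : ℚˣ | ∃ r ∈ N.primeFactors, (g : ℚ) = r} ⊆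
      (fun g : ℚˣ => (g : ℚ)) ⁻¹' ((fun r : ℕ => (r : ℚ)) '' (N.primeFactors : Set ℕ)) := by
    rintro g ⟨r, hr, h⟩
    exact ⟨r, hr, h.symm⟩
  refine Set.Finite.subset ?_ h1
  apply Set.Finite.preimage
  · exact Set.injOn_of_injective Units.val_injective
  · exact (Finset.finite_toSet _).image _

lemma GG_mem (N : ℕ) (hN : N ≠ 0) (n : ℕ) : Smooth N n → ∀ g : ℚˣ, (g : ℚ) = n → g ∈ GG N := by
  induction n using Nat.recOnMul with
  | zero => exact fun h => absurd rfl h.1
  | one =>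
    intro _ g hg
    have : g = 1 := Units.ext (by simpa using hg)
    rw [this]
    exact one_mem _
  | prime r hr =>
    intro h g hg
    apply Subgroup.subset_closure
    exact ⟨r, Nat.mem_primeFactors.2 ⟨hr, h.2 r hr dvd_rfl, hN⟩, hg⟩
  | mul a b iha ihb =>
    intro h g hg
    have ha : Smooth N a := h.dvd (dvd_mul_right _ _)
    have hb : Smooth N b := h.dvd (dvd_mul_left _ _)
    have ha0 : (a : ℚ) ≠ 0 := by exact_mod_cast ha.1
    have hb0 : (b : ℚ) ≠ 0 := by exact_mod_cast hb.1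
    have h1 : g = Units.mk0 (a : ℚ) ha0 * Units.mk0 (b : ℚ) hb0 := by
      apply Units.ext
      rw [hg]
      push_cast
      simp
    rw [h1]
    exact mul_mem (iha ha _ rfl) (ihb hb _ rfl)

end Pool.Agent.NH26.DT
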